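import Pool.Agent.Run7.h635.PV.AFE0

/-! Project PV, piece AFE: the approximate functional equation with a slowly varying weight. -/

set_option autoImplicit false

namespace Pool.Agent.Run7.h635.PV

open Pool.Agent.Run7.h343.PV MeasureTheory Set

/-- the function `v ↦ V (exp v / q)` -/
noncomputable def rho (q : ℕ) (v : ℝ) : ℝ := V (Real.exp v / q)

theorem rho_anti (q : ℕ) : Antitone (rho q) := by
  intro a b hab
  have h1 : Real.exp a ≤ Real.exp b := Real.exp_le_exp.2 hab
  exact V_anti (by positivity) (div_le_div_of_nonneg_right h1 (by positivity))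

theorem rho_nonneg (q : ℕ) (v : ℝ) : 0 ≤ rho q v := V_nonneg (by positivity)

theorem rho_le_one (q : ℕ) (v : ℝ) : rho q v ≤ 1 := V_le_one (by positivity)

theorem rho_int (q : ℕ) (a b : ℝ) : IntervalIntegrable (rho q) volume a b :=
  (rho_anti q).intervalIntegrable

/-- the averaged weight -/
noncomputable def ww (q : ℕ) (U t : ℝ) : ℝ := (∫ v in (2 * t - U)..(2 * t + U), rho q v) / (2 * U)

theorem int_bounds (q : ℕ) {a b : ℝ} (hab : a ≤ b) :
    0 ≤ ∫ v in a..b, rho q v ∧ ∫ v in a..b, rho q v ≤ b - a := by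
  constructor
  · exact intervalIntegral.integral_nonneg hab fun u _ => rho_nonneg q u
  · have h1 := intervalIntegral.integral_mono_on hab (rho_int q a b)
      (intervalIntegrable_const (c := (1 : ℝ))) fun u _ => rho_le_one q u
    simpa using h1

theorem ww_bounds (q : ℕ) {U : ℝ} (hU : 1 ≤ U) (t : ℝ) : 0 ≤ ww q U t ∧ ww q U t ≤ 1 := by
  obtain ⟨h1, h2⟩ := int_bounds q (a := 2 * t - U) (b := 2 * t + U) (by linarith)
  unfold ww
  constructor
  · exact div_nonneg h1 (by linarith)
  · rw [div_le_one (by linarith)]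
    linarith

theorem ww_lip_aux (q : ℕ) {U : ℝ} (hU : 1 ≤ U) {s t : ℝ} (hst : s ≤ t) :
    |ww q U s - ww q U t| ≤ (t - s) / U := by
  obtain ⟨h1, h2⟩ := int_bounds q (a := 2 * s - U) (b := 2 * t - U) (by linarith)
  obtain ⟨h3, h4⟩ := int_bounds q (a := 2 * s + U) (b := 2 * t + U) (by linarith)
  have h5 : (∫ v in (2 * s - U)..(2 * t - U), rho q v) + ∫ v in (2 * t - U)..(2 * t + U), rho q v =
      (∫ v in (2 * s - U)..(2 * s + U), rho q v) + ∫ v in (2 * s + U)..(2 * t + U), rho q v := by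
    rw [intervalIntegral.integral_add_adjacent_intervals (rho_int q _ _) (rho_int q _ _),
      intervalIntegral.integral_add_adjacent_intervals (rho_int q _ _) (rho_int q _ _)]
  have h6 : ww q U s - ww q U t = ((∫ v in (2 * s - U)..(2 * t - U), rho q v) -
      ∫ v in (2 * s + U)..(2 * t + U), rho q v) / (2 * U) := by
    unfold ww
    rw [← sub_div]
    congr 1
    linarith
  have h7 : (t - s) / U = (2 * (t - s)) / (2 * U) := by
    rw [mul_div_mul_left _ _ two_ne_zero]
  rw [h6, h7, abs_div, abs_of_pos (by linarith : 0 < 2 * U)]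
  refine div_le_div_of_nonneg_right ?_ (by linarith)
  rw [abs_le]
  constructor <;> linarith

theorem ww_lip (q : ℕ) {U : ℝ} (hU : 1 ≤ U) (s t : ℝ) : |ww q U s - ww q U t| ≤ |s - t| / U := by
  rcases le_total s t with h | h
  · rw [abs_sub_comm s t, abs_of_nonneg (by linarith : 0 ≤ t - s)]
    exact ww_lip_aux q hU h
  · rw [abs_of_nonneg (by linarith : 0 ≤ s - t), abs_sub_comm]
    exact ww_lip_aux q hU h

theorem ww_ge (q : ℕ) {U : ℝ} (hU : 1 ≤ U) (t : ℝ) :
    1 - ww q U t ≤ 2 * (Real.exp (2 * t + U) / q) ^ (1 / 4 : ℝ) := by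
  set K : ℝ := 2 * (Real.exp (2 * t + U) / q) ^ (1 / 4 : ℝ) with hK
  have h1 : ∫ v in (2 * t - U)..(2 * t + U), (1 - K) ≤
      ∫ v in (2 * t - U)..(2 * t + U), rho q v := by
    refine intervalIntegral.integral_mono_on (by linarith) intervalIntegrable_const
      (rho_int q _ _) fun u hu => ?_
    have h2 := one_sub_V (y := Real.exp u / q) (by positivity)
    have h3 : (Real.exp u / q) ^ (1 / 4 : ℝ) ≤ (Real.exp (2 * t + U) / q) ^ (1 / 4 : ℝ) := by
      refine Real.rpow_le_rpow (by positivity) ?_ (by norm_num)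
      exact div_le_div_of_nonneg_right (Real.exp_le_exp.2 hu.2) (by positivity)
    unfold rho
    rw [hK]
    linarith
  rw [intervalIntegral.integral_const, smul_eq_mul] at h1
  have h4 : 1 - K ≤ ww q U t := by
    unfold ww
    rw [le_div_iff₀ (by linarith)]
    linarith
  linarith

theorem ww_le (q : ℕ) {U : ℝ} (hU : 1 ≤ U) (t : ℝ) :
    ww q U t ≤ rho q (2 * t - U) := by
  have h1 : ∫ v in (2 * t - U)..(2 * t + U), rho q v ≤
      ∫ v in (2 * t - U)..(2 * t + U), rho q (2 * t - U) :=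
    intervalIntegral.integral_mono_on (by linarith) (rho_int q _ _) intervalIntegrable_const
      fun u hu => rho_anti q hu.1
  rw [intervalIntegral.integral_const, smul_eq_mul] at h1
  unfold ww
  rw [div_le_iff₀ (by linarith)]
  linarith

theorem rho_le_exp (q : ℕ) (v : ℝ) : rho q v ≤ Real.exp (-(Real.exp v / q)) := by
  refine (V_le_exp (by positivity)).trans (Real.exp_le_exp.2 ?_)
  have h1 : 0 ≤ Real.exp v / q := by positivity
  have h2 : 1 ≤ Real.pi := by linarith [Real.pi_gt_three]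
  nlinarith

theorem ww_log (q : ℕ) (U : ℝ) (n : ℕ) (hn : 1 ≤ n) :
    ∫ u in (-U)..U, V ((n : ℝ) ^ 2 * Real.exp u / q) = 2 * U * ww q U (Real.log n) ∨ U = 0 := by
  by_cases hU : U = 0
  · exact Or.inr hU
  left
  have h0 : (0 : ℝ) < n := by exact_mod_cast hn
  have h1 : ∀ u : ℝ, V ((n : ℝ) ^ 2 * Real.exp u / q) = rho q (2 * Real.log n + u) := by
    intro u
    unfold rho
    rw [Real.exp_add, two_mul, Real.exp_add, Real.exp_log h0, sq]
  simp_rw [h1]
  rw [intervalIntegral.integral_comp_add_left (rho q) (2 * Real.log n)]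
  unfold ww
  rw [mul_div_cancel₀ _ (mul_ne_zero two_ne_zero hU)]
  rfl

theorem t_AFE_of (h0 : S_AFE0) : S_AFE := by
  intro q _ hq U hU
  have hq0 : (0 : ℝ) < q := by exact_mod_cast NeZero.pos q
  refine ⟨ww q U, ww_bounds q hU, ww_lip q hU, ww_ge q hU, fun t => ?_, fun ψ hψ hE => ?_⟩
  · have h1 := (ww_le q hU t).trans (rho_le_exp q (2 * t - U))
    have h2 := Real.exp_pos (-(Real.exp (2 * t - U) / q))
    linarith
  have ψ0 : ψ ((0 : ℕ) : ZMod q) = 0 := by
    rw [Nat.cast_zero]
    exact DirichletCharacter.map_zero' ψ (by omega)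
  have hn1 : ∀ n : ℕ, ‖ψ (n : ZMod q)‖ ≤ 1 := fun n => DirichletCharacter.norm_le_one ψ _
  have hn2 : ∀ n : ℕ, ‖(starRingEnd ℂ) (ψ (n : ZMod q))‖ ≤ 1 := fun n => by
    rw [RCLike.norm_conj]
    exact hn1 n
  set b : ℕ → ℝ := fun n => V ((n : ℝ) ^ 2 * (Real.exp (-U) / q)) / Real.sqrt n with hb
  have hb0 : ∀ n, 0 ≤ b n := fun n =>
    div_nonneg (V_nonneg (by positivity)) (Real.sqrt_nonneg _)
  have hbs : Summable b := by
    have h1 := summ (a := fun _ : ℕ => (1 : ℂ)) (fun n => by simp) (c := Real.exp (-U) / q)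
      (by positivity)
    simpa using h1
  set ε := ψ.rootNumber with hε
  have hV1 : ∀ (n : ℕ) (u : ℝ), u ∈ uIoc (-U) U →
      |V ((n : ℝ) ^ 2 * Real.exp u / q) / Real.sqrt n| ≤ b n := by
    intro n u hu
    rw [uIoc_of_le (by linarith)] at hu
    rw [abs_of_nonneg (div_nonneg (V_nonneg (by positivity)) (Real.sqrt_nonneg _)), hb]
    refine div_le_div_of_nonneg_right (V_anti (by positivity) ?_) (Real.sqrt_nonneg _)
    rw [mul_div_assoc]
    refine mul_le_mul_of_nonneg_left ?_ (by positivity)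
    exact div_le_div_of_nonneg_right (Real.exp_le_exp.2 hu.1.le) hq0.le
  have hV2 : ∀ (n : ℕ) (u : ℝ), u ∈ uIoc (-U) U →
      |V ((n : ℝ) ^ 2 / (Real.exp u * q)) / Real.sqrt n| ≤ b n := by
    intro n u hu
    rw [uIoc_of_le (by linarith)] at hu
    rw [abs_of_nonneg (div_nonneg (V_nonneg (by positivity)) (Real.sqrt_nonneg _)), hb]
    refine div_le_div_of_nonneg_right (V_anti (by positivity) ?_) (Real.sqrt_nonneg _)
    have h1 : (n : ℝ) ^ 2 / (Real.exp u * q) = (n : ℝ) ^ 2 * (Real.exp (-u) / q) := by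
      rw [Real.exp_neg]
      field_simp
    rw [h1]
    refine mul_le_mul_of_nonneg_left ?_ (by positivity)
    exact div_le_div_of_nonneg_right (Real.exp_le_exp.2 (by linarith [hu.2])) hq0.le
  have hI1 : ∀ n : ℕ, IntervalIntegrable
      (fun u : ℝ => V ((n : ℝ) ^ 2 * Real.exp u / q)) volume (-U) U := by
    intro n
    refine Antitone.intervalIntegrable fun x y hxy => V_anti (by positivity) ?_
    refine div_le_div_of_nonneg_right ?_ hq0.le
    exact mul_le_mul_of_nonneg_left (Real.exp_le_exp.2 hxy) (by positivity)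
  have hI2 : ∀ n : ℕ, IntervalIntegrable
      (fun u : ℝ => V ((n : ℝ) ^ 2 / (Real.exp u * q))) volume (-U) U := by
    intro n
    refine Monotone.intervalIntegrable fun x y hxy => V_anti (by positivity) ?_
    refine div_le_div_of_nonneg_left (by positivity) (by positivity) ?_
    exact mul_le_mul_of_nonneg_right (Real.exp_le_exp.2 hxy) hq0.le
  -- the average of the terms
  have hJ1 : ∀ n : ℕ, ψ (n : ZMod q) * (((∫ u in (-U)..U, V ((n : ℝ) ^ 2 * Real.exp u / q)) /
      Real.sqrt n : ℝ) : ℂ) = (2 * U : ℝ) * (ψ (n : ZMod q) *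
        ((ww q U (Real.log n) / Real.sqrt n : ℝ) : ℂ)) := by
    intro n
    rcases Nat.eq_zero_or_pos n with h | h
    · rw [h, ψ0]
      simp
    · rcases ww_log q U n h with h1 | h1
      · rw [h1]
        push_cast
        ring
      · exact absurd h1 (by linarith)
  have hJ2 : ∀ n : ℕ, (starRingEnd ℂ) (ψ (n : ZMod q)) *
      (((∫ u in (-U)..U, V ((n : ℝ) ^ 2 / (Real.exp u * q))) /
      Real.sqrt n : ℝ) : ℂ) = (2 * U : ℝ) * ((starRingEnd ℂ) (ψ (n : ZMod q)) *
        ((ww q U (Real.log n) / Real.sqrt n : ℝ) : ℂ)) := by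
    intro n
    have h2 : ∫ u in (-U)..U, V ((n : ℝ) ^ 2 / (Real.exp u * q)) =
        ∫ u in (-U)..U, V ((n : ℝ) ^ 2 * Real.exp u / q) := by
      have h3 := intervalIntegral.integral_comp_neg (a := -U) (b := U)
        (fun u : ℝ => V ((n : ℝ) ^ 2 * Real.exp u / q))
      rw [neg_neg] at h3
      rw [← h3]
      refine intervalIntegral.integral_congr fun u _ => ?_
      congr 1
      rw [Real.exp_neg]
      field_simp
    rw [h2]
    rcases Nat.eq_zero_or_pos n with h | h
    · rw [h, ψ0]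
      simp
    · rcases ww_log q U n h with h1 | h1
      · rw [h1]
        push_cast
        ring
      · exact absurd h1 (by linarith)
  set F1 : ℕ → ℝ → ℂ := fun n u => ψ (n : ZMod q) *
    ((V ((n : ℝ) ^ 2 * Real.exp u / q) / Real.sqrt n : ℝ) : ℂ) with hF1
  set F2 : ℕ → ℝ → ℂ := fun n u => (starRingEnd ℂ) (ψ (n : ZMod q)) *
    ((V ((n : ℝ) ^ 2 / (Real.exp u * q)) / Real.sqrt n : ℝ) : ℂ) with hF2
  have hF1I : ∀ n, IntervalIntegrable (F1 n) volume (-U) U := fun n =>
    IntervalIntegrable.const_mul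
      (⟨((hI1 n).div_const _).1.ofReal, ((hI1 n).div_const _).2.ofReal⟩ :
        IntervalIntegrable (fun u : ℝ =>
          ((V ((n : ℝ) ^ 2 * Real.exp u / q) / Real.sqrt n : ℝ) : ℂ)) volume (-U) U) _
  have hF2I : ∀ n, IntervalIntegrable (F2 n) volume (-U) U := fun n =>
    IntervalIntegrable.const_mul
      (⟨((hI2 n).div_const _).1.ofReal, ((hI2 n).div_const _).2.ofReal⟩ :
        IntervalIntegrable (fun u : ℝ =>
          ((V ((n : ℝ) ^ 2 / (Real.exp u * q)) / Real.sqrt n : ℝ) : ℂ)) volume (-U) U) _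
  have hB1 : ∀ n, ∀ u ∈ uIoc (-U) U, ‖F1 n u‖ ≤ b n := by
    intro n u hu
    rw [hF1, norm_mul, Complex.norm_real, Real.norm_eq_abs]
    calc _ ≤ 1 * b n := mul_le_mul (hn1 n) (hV1 n u hu) (abs_nonneg _) zero_le_one
      _ = b n := one_mul _
  have hB2 : ∀ n, ∀ u ∈ uIoc (-U) U, ‖F2 n u‖ ≤ b n := by
    intro n u hu
    rw [hF2, norm_mul, Complex.norm_real, Real.norm_eq_abs]
    calc _ ≤ 1 * b n := mul_le_mul (hn2 n) (hV2 n u hu) (abs_nonneg _) zero_le_one
      _ = b n := one_mul _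
  have hS1 : ∀ u ∈ uIoc (-U) U, Summable fun n => F1 n u := fun u hu =>
    Summable.of_norm_bounded hbs fun n => hB1 n u hu
  have hS2 : ∀ u ∈ uIoc (-U) U, Summable fun n => F2 n u := fun u hu =>
    Summable.of_norm_bounded hbs fun n => hB2 n u hu
  have hmain := intervalIntegral.hasSum_integral_of_dominated_convergence (μ := volume)
    (a := -U) (b := U) (F := fun n u => F1 n u + ε * F2 n u)
    (f := fun _ => ψ.LFunction (1 / 2)) (fun n _ => b n + ‖ε‖ * b n)
    (fun n => ((hF1I n).add ((hF2I n).const_mul ε)).def'.aestronglyMeasurable)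
    (fun n => Filter.Eventually.of_forall fun u hu => (norm_add_le _ _).trans
      (add_le_add (hB1 n u hu) (by
        rw [norm_mul]
        exact mul_le_mul_of_nonneg_left (hB2 n u hu) (norm_nonneg _))))
    (Filter.Eventually.of_forall fun u _ => hbs.add (hbs.mul_left _))
    intervalIntegrable_const
    (Filter.Eventually.of_forall fun u hu => by
      have h1 := (h0 q hq ψ hψ hE (Real.exp u) (Real.exp_pos u)).2
      rw [h1]
      exact (hS1 u hu).hasSum.add ((hS2 u hu).hasSum.mul_left ε))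
  have hK1 : ∀ n, ∫ u in (-U)..U, F1 n u = (2 * U : ℝ) * (ψ (n : ZMod q) *
        ((ww q U (Real.log n) / Real.sqrt n : ℝ) : ℂ)) := by
    intro n
    rw [← hJ1 n, hF1]
    simp only
    rw [intervalIntegral.integral_const_mul, ← intervalIntegral.integral_div,
      intervalIntegral.integral_ofReal]
  have hK2 : ∀ n, ∫ u in (-U)..U, F2 n u = (2 * U : ℝ) * ((starRingEnd ℂ) (ψ (n : ZMod q)) *
        ((ww q U (Real.log n) / Real.sqrt n : ℝ) : ℂ)) := by
    intro n
    rw [← hJ2 n, hF2]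
    simp only
    rw [intervalIntegral.integral_const_mul, ← intervalIntegral.integral_div,
      intervalIntegral.integral_ofReal]
  have hT : ∀ n, ∫ u in (-U)..U, (F1 n u + ε * F2 n u) =
      (2 * U : ℝ) * (ψ (n : ZMod q) * ((ww q U (Real.log n) / Real.sqrt n : ℝ) : ℂ) +
        ε * ((starRingEnd ℂ) (ψ (n : ZMod q)) *
          ((ww q U (Real.log n) / Real.sqrt n : ℝ) : ℂ))) := by
    intro n
    rw [intervalIntegral.integral_add (hF1I n) ((hF2I n).const_mul ε), hK1,
      intervalIntegral.integral_const_mul ε, hK2]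
    ring
  have hwb : ∀ n : ℕ, 1 ≤ n → |ww q U (Real.log n) / Real.sqrt n| ≤ b n := by
    intro n hn
    have h1 : (0 : ℝ) < n := by exact_mod_cast hn
    rw [abs_of_nonneg (div_nonneg (ww_bounds q hU _).1 (Real.sqrt_nonneg _)), hb]
    refine div_le_div_of_nonneg_right ((ww_le q hU _).trans (le_of_eq ?_)) (Real.sqrt_nonneg _)
    unfold rho
    congr 1
    rw [sub_eq_add_neg, Real.exp_add, two_mul, Real.exp_add, Real.exp_log h1, sq, mul_div_assoc]
  have hQ1 : Summable fun n : ℕ => ψ (n : ZMod q) *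
      ((ww q U (Real.log n) / Real.sqrt n : ℝ) : ℂ) := by
    refine Summable.of_norm_bounded hbs fun n => ?_
    rcases Nat.eq_zero_or_pos n with h | h
    · rw [h, ψ0, zero_mul, norm_zero]
      exact hb0 0
    · rw [norm_mul, Complex.norm_real, Real.norm_eq_abs]
      calc _ ≤ 1 * b n := mul_le_mul (hn1 n) (hwb n h) (abs_nonneg _) zero_le_one
        _ = b n := one_mul _
  have hQ2 : Summable fun n : ℕ => (starRingEnd ℂ) (ψ (n : ZMod q)) *
      ((ww q U (Real.log n) / Real.sqrt n : ℝ) : ℂ) := by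
    refine Summable.of_norm_bounded hbs fun n => ?_
    rcases Nat.eq_zero_or_pos n with h | h
    · rw [h, ψ0, map_zero, zero_mul, norm_zero]
      exact hb0 0
    · rw [norm_mul, Complex.norm_real, Real.norm_eq_abs]
      calc _ ≤ 1 * b n := mul_le_mul (hn2 n) (hwb n h) (abs_nonneg _) zero_le_one
        _ = b n := one_mul _
  simp_rw [hT] at hmain
  have h9 := hmain.tsum_eq
  rw [tsum_mul_left, hQ1.tsum_add (hQ2.mul_left ε), tsum_mul_left,
    intervalIntegral.integral_const] at h9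
  have h10 : (U - -U) • ψ.LFunction (1 / 2) = ((2 * U : ℝ) : ℂ) * ψ.LFunction (1 / 2) := by
    rw [Complex.real_smul]
    congr 2
    ring
  rw [h10] at h9
  have h11 : ((2 * U : ℝ) : ℂ) ≠ 0 := Complex.ofReal_ne_zero.2 (by linarith)
  exact (mul_left_cancel₀ h11 h9).symm

theorem t_AFE : S_AFE := t_AFE_of t_AFE0

end Pool.Agent.Run7.h635.PV
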