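import Pool.Agent.Run7.h635.PV.Th

/-! Project PV, piece AFE0: the exact approximate functional equation at the central point. -/

set_option autoImplicit false

namespace Pool.Agent.Run7.h635.PV

open Pool.Agent.Run7.h343.PV Complex Filter Topology HurwitzZeta MeasureTheory Set

theorem n_le_sq (n : ℕ) : (n : ℝ) ≤ (n : ℝ) ^ 2 := by
  rcases Nat.eq_zero_or_pos n with h | h
  · simp [h]
  · have : (1 : ℝ) ≤ n := by exact_mod_cast h
    nlinarith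

theorem V_sqrt_le {c : ℝ} (hc : 0 < c) (n : ℕ) (hn : 1 ≤ n) :
    V ((n : ℝ) ^ 2 * c) / Real.sqrt n ≤ Real.exp ((n : ℝ) * (-(Real.pi * c))) := by
  have h1 : (1 : ℝ) ≤ n := by exact_mod_cast hn
  have h2 : 1 ≤ Real.sqrt n := by
    rw [show (1 : ℝ) = Real.sqrt 1 by simp]
    exact Real.sqrt_le_sqrt h1
  have h3 : 0 ≤ V ((n : ℝ) ^ 2 * c) := V_nonneg (by positivity)
  have h4 : V ((n : ℝ) ^ 2 * c) / Real.sqrt n ≤ V ((n : ℝ) ^ 2 * c) :=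
    div_le_self h3 h2
  refine h4.trans ((V_le_exp (by positivity)).trans ?_)
  apply Real.exp_le_exp.2
  have h5 := n_le_sq n
  have h6 : 0 < Real.pi * c := mul_pos Real.pi_pos hc
  nlinarith

theorem summ {a : ℕ → ℂ} (ha : ∀ n, ‖a n‖ ≤ 1) {c : ℝ} (hc : 0 < c) :
    Summable (fun n : ℕ => ‖a n‖ * (V ((n : ℝ) ^ 2 * c) / Real.sqrt n)) := by
  have h1 : Summable (fun n : ℕ => Real.exp ((n : ℝ) * (-(Real.pi * c)))) :=
    Real.summable_exp_nat_mul_iff.2 (by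
      have := mul_pos Real.pi_pos hc
      linarith)
  refine Summable.of_nonneg_of_le (fun n => ?_) (fun n => ?_) h1
  · exact mul_nonneg (norm_nonneg _) (div_nonneg (V_nonneg (by positivity)) (Real.sqrt_nonneg _))
  · rcases Nat.eq_zero_or_pos n with h | h
    · rw [h]
      simp
    · have h2 := V_sqrt_le hc n h
      have h3 : 0 ≤ V ((n : ℝ) ^ 2 * c) / Real.sqrt n :=
        div_nonneg (V_nonneg (by positivity)) (Real.sqrt_nonneg _)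
      calc ‖a n‖ * (V ((n : ℝ) ^ 2 * c) / Real.sqrt n)
          ≤ 1 * (V ((n : ℝ) ^ 2 * c) / Real.sqrt n) := mul_le_mul_of_nonneg_right (ha n) h3
        _ ≤ _ := by rw [one_mul]; exact h2

theorem int_term {A x0 : ℝ} (hA : 0 < A) (hx0 : 0 < x0) :
    IntegrableOn (fun x : ℝ => x ^ (-(3 / 4) : ℝ) * Real.exp (-(A * x))) (Ioi x0) := by
  have h1 : IntegrableOn (fun x : ℝ => x0 ^ (-(3 / 4) : ℝ) * Real.exp (-A * x)) (Ioi x0) :=
    (integrableOn_exp_mul_Ioi (a := -A) (by linarith) x0).const_mul _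
  refine Integrable.mono' h1 ?_ ?_
  · exact ((measurable_id.pow_const _).mul
      (Real.measurable_exp.comp (measurable_const.mul measurable_id).neg)).aestronglyMeasurable
  · filter_upwards [ae_restrict_mem measurableSet_Ioi] with x hx
    have hx' : x0 < x := hx
    have hx0' : 0 < x := hx0.trans hx'
    rw [Real.norm_eq_abs, abs_of_nonneg (by positivity), neg_mul]
    refine mul_le_mul_of_nonneg_right ?_ (Real.exp_pos _).le
    exact Real.rpow_le_rpow_of_nonpos hx0 hx'.le (by norm_num)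

theorem pow_A (n : ℕ) (c : ℝ) (hc : 0 < c) :
    (Real.pi * (n : ℝ) ^ 2 * c) ^ (-(1 / 4) : ℝ) =
      c ^ (-(1 / 4) : ℝ) * Real.pi ^ (-(1 / 4) : ℝ) * ((n : ℝ) ^ 2) ^ (-(1 / 4) : ℝ) := by
  rw [Real.mul_rpow (by positivity) hc.le, Real.mul_rpow Real.pi_pos.le (by positivity)]
  ring

theorem sq_pow (n : ℕ) (hn : 1 ≤ n) : ((n : ℝ) ^ 2) ^ (-(1 / 4) : ℝ) = 1 / Real.sqrt n := by
  have h1 : (0 : ℝ) < n := by exact_mod_cast hn
  have h2 : ((n : ℝ) ^ 2) ^ (-(1 / 4) : ℝ) = (n : ℝ) ^ (-(1 / 2) : ℝ) := by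
    rw [← Real.rpow_natCast, ← Real.rpow_mul h1.le]
    norm_num
  rw [h2, Real.sqrt_eq_rpow, Real.rpow_neg h1.le, one_div ((n : ℝ) ^ (1 / 2 : ℝ))]

/-- termwise integration -/
theorem TW (a : ℕ → ℂ) (ha : ∀ n, ‖a n‖ ≤ 1) (ha0 : a 0 = 0) (c x0 : ℝ) (hc : 0 < c) (hx0 : 0 < x0)
    (H : ℝ → ℂ) (hH : ∀ x, x0 < x → HasSum (fun n : ℕ => a n *
      ((Real.exp (-(Real.pi * (n : ℝ) ^ 2 * c * x)) : ℝ) : ℂ)) (H x)) :
    ∫ x in Ioi x0, ((x ^ (-(3 / 4) : ℝ) : ℝ) : ℂ) * H x =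
      ((c ^ (-(1 / 4) : ℝ) * Real.pi ^ (-(1 / 4) : ℝ) * Real.Gamma (1 / 4) : ℝ) : ℂ) *
        ∑' n : ℕ, a n * ((V ((n : ℝ) ^ 2 * (c * x0)) / Real.sqrt n : ℝ) : ℂ) := by
  set F : ℕ → ℝ → ℂ := fun n x => a n *
    ((x ^ (-(3 / 4) : ℝ) * Real.exp (-(Real.pi * (n : ℝ) ^ 2 * c * x)) : ℝ) : ℂ) with hF
  set K : ℝ := c ^ (-(1 / 4) : ℝ) * Real.pi ^ (-(1 / 4) : ℝ) * Real.Gamma (1 / 4) with hK
  have hK0 : 0 ≤ K := by
    have := gam_pos
    have h2 := Real.pi_pos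
    positivity
  have hsc : ∀ n : ℕ, 1 ≤ n → ∫ x in Ioi x0, x ^ (-(3 / 4) : ℝ) *
      Real.exp (-(Real.pi * (n : ℝ) ^ 2 * c * x)) =
      K * (V ((n : ℝ) ^ 2 * (c * x0)) / Real.sqrt n) := by
    intro n hn
    have h1 : (0 : ℝ) < n := by exact_mod_cast hn
    rw [scaled (Real.pi * (n : ℝ) ^ 2 * c) x0 (mul_pos (mul_pos Real.pi_pos (by positivity)) hc)
      hx0.le ((n : ℝ) ^ 2 * (c * x0)) (by ring), pow_A n c hc, sq_pow n hn, hK]
    ring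
  have hint : ∀ n : ℕ, Integrable (F n) (volume.restrict (Ioi x0)) := by
    intro n
    rcases Nat.eq_zero_or_pos n with h | h
    · rw [h]
      have : F 0 = fun _ => 0 := by
        funext x
        simp [hF, ha0]
      rw [this]
      exact integrable_zero _ _ _
    · have h1 : (0 : ℝ) < n := by exact_mod_cast h
      exact ((int_term (mul_pos (mul_pos Real.pi_pos (by positivity)) hc) hx0).ofReal
        (𝕜 := ℂ)).const_mul (a n)
  have hnorm : ∀ n : ℕ, ∫ x in Ioi x0, ‖F n x‖ =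
      K * (‖a n‖ * (V ((n : ℝ) ^ 2 * (c * x0)) / Real.sqrt n)) := by
    intro n
    rcases Nat.eq_zero_or_pos n with h | h
    · rw [h]
      simp [hF, ha0]
    · have h1 : ∫ x in Ioi x0, ‖F n x‖ = ∫ x in Ioi x0, ‖a n‖ * (x ^ (-(3 / 4) : ℝ) *
          Real.exp (-(Real.pi * (n : ℝ) ^ 2 * c * x))) := by
        refine setIntegral_congr_fun measurableSet_Ioi fun x hx => ?_
        have hx' : 0 < x := hx0.trans hx
        simp only [hF]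
        rw [norm_mul, Complex.norm_real, Real.norm_eq_abs, abs_of_nonneg (by positivity)]
      rw [h1, integral_const_mul, hsc n h]
      ring
  have hsum : Summable fun n : ℕ => ∫ x in Ioi x0, ‖F n x‖ := by
    simp_rw [hnorm]
    exact (summ ha (mul_pos hc hx0)).mul_left K
  have h1 := hasSum_integral_of_summable_integral_norm hint hsum
  have h2 : ∫ x in Ioi x0, ∑' n : ℕ, F n x =
      ∫ x in Ioi x0, ((x ^ (-(3 / 4) : ℝ) : ℝ) : ℂ) * H x := by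
    refine setIntegral_congr_fun measurableSet_Ioi fun x hx => ?_
    have h3 := (hH x hx).mul_left ((x ^ (-(3 / 4) : ℝ) : ℝ) : ℂ)
    rw [← h3.tsum_eq]
    refine tsum_congr fun n => ?_
    simp only [hF]
    push_cast
    ring
  rw [h2] at h1
  rw [← h1.tsum_eq, ← tsum_mul_left]
  refine tsum_congr fun n => ?_
  rcases Nat.eq_zero_or_pos n with h | h
  · rw [h]
    simp [hF, ha0]
  · have h4 : ∫ x in Ioi x0, F n x = a n * ((∫ x in Ioi x0, x ^ (-(3 / 4) : ℝ) *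
        Real.exp (-(Real.pi * (n : ℝ) ^ 2 * c * x)) : ℝ) : ℂ) := by
      simp only [hF]
      rw [integral_const_mul]
      congr 1
      exact integral_ofReal (𝕜 := ℂ)
    rw [h4, hsc n h]
    push_cast
    ring

/-- the part near zero, transformed -/
theorem part_zero (N : ℕ) [NeZero N] (ψ : DirichletCharacter ℂ N) {x0 : ℝ} (hx0 : 0 < x0) :
    ∫ t in Ioc (0 : ℝ) x0, ((t ^ (-(3 / 4) : ℝ) : ℝ) : ℂ) * FF N ψ t =
      ∫ x in Ioi (x0⁻¹), ((x ^ (-(3 / 4) : ℝ) : ℝ) : ℂ) * GG N ψ x := by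
  set k : ℝ → ℂ := (Iio x0).indicator
    (fun t => ((t ^ (-(3 / 4) : ℝ) : ℝ) : ℂ) * FF N ψ t) with hk
  have h1 := integral_comp_rpow_Ioi k (p := -1) (by norm_num)
  have h2 : ∫ y in Ioi (0 : ℝ), k y =
      ∫ t in Ioc (0 : ℝ) x0, ((t ^ (-(3 / 4) : ℝ) : ℝ) : ℂ) * FF N ψ t := by
    rw [hk, setIntegral_indicator measurableSet_Iio, Ioi_inter_Iio,
      integral_Ioc_eq_integral_Ioo]
  rw [← h2, ← h1]
  have h3 : ∫ x in Ioi (x0⁻¹), ((x ^ (-(3 / 4) : ℝ) : ℝ) : ℂ) * GG N ψ x =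
      ∫ x in Ioi (0 : ℝ), (Ioi (x0⁻¹)).indicator
        (fun x => ((x ^ (-(3 / 4) : ℝ) : ℝ) : ℂ) * GG N ψ x) x := by
    rw [setIntegral_indicator measurableSet_Ioi]
    congr 2
    ext x
    simp only [mem_Ioi, mem_inter_iff]
    constructor
    · intro h
      exact ⟨(inv_pos.2 hx0).trans h, h⟩
    · exact fun h => h.2
  rw [h3]
  refine setIntegral_congr_fun measurableSet_Ioi fun x hx => ?_
  have hx' : (0 : ℝ) < x := hx
  rw [Real.rpow_neg_one, hk]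
  by_cases h : x0⁻¹ < x
  · have h4 : x⁻¹ < x0 := by
      rw [inv_lt_comm₀ hx' hx0]
      exact h
    rw [indicator_of_mem (mem_Ioi.2 h), indicator_of_mem (mem_Iio.2 h4), FE N ψ hx']
    have h5 : |(-1 : ℝ)| * x ^ ((-1 : ℝ) - 1) * ((x⁻¹) ^ (-(3 / 4) : ℝ) * x ^ (1 / 2 : ℝ)) =
        x ^ (-(3 / 4) : ℝ) := by
      rw [abs_neg, abs_one, one_mul, Real.inv_rpow hx'.le, ← Real.rpow_neg hx'.le,
        ← Real.rpow_add hx', ← Real.rpow_add hx']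
      norm_num
    rw [← h5, Complex.real_smul]
    push_cast
    ring
  · have h4 : ¬ x⁻¹ < x0 := by
      rw [inv_lt_comm₀ hx' hx0]
      exact h
    rw [indicator_of_notMem (mt mem_Iio.1 h4), indicator_of_notMem (mt mem_Ioi.1 h), smul_zero]

theorem t_AFE0 : S_AFE0 := by
  intro q _ hq ψ hψ hE X hX
  have hq0 : (0 : ℝ) < q := by exact_mod_cast NeZero.pos q
  have hn1 : ∀ n : ℕ, ‖ψ (n : ZMod q)‖ ≤ 1 := fun n => DirichletCharacter.norm_le_one ψ _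
  have ψ0 : ψ ((0 : ℕ) : ZMod q) = 0 := by
    rw [Nat.cast_zero]
    exact DirichletCharacter.map_zero' ψ (by omega)
  refine ⟨?_, ?_⟩
  · have h1 := summ (a := fun n : ℕ => ψ (n : ZMod q)) hn1 (c := X / q) (by positivity)
    refine h1.congr fun n => ?_
    rw [mul_div_assoc ((n : ℝ) ^ 2) X (q : ℝ)]
  obtain ⟨hI, hL⟩ := central q hq ψ hψ hE
  have hx0 : 0 < (q : ℝ) * X := by positivity
  have hsplit : ∫ t in Ioi (0 : ℝ), ((t ^ (-(3 / 4) : ℝ) : ℝ) : ℂ) * FF q ψ t =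
      (∫ t in Ioc (0 : ℝ) (q * X), ((t ^ (-(3 / 4) : ℝ) : ℝ) : ℂ) * FF q ψ t) +
      ∫ t in Ioi ((q : ℝ) * X), ((t ^ (-(3 / 4) : ℝ) : ℝ) : ℂ) * FF q ψ t := by
    rw [← setIntegral_union (Ioc_disjoint_Ioi le_rfl) measurableSet_Ioi
      (hI.mono_set fun x hx => hx.1) (hI.mono_set (Ioi_subset_Ioi hx0.le)),
      Ioc_union_Ioi_eq_Ioi hx0.le]
  have hP1 : ∫ t in Ioi ((q : ℝ) * X), ((t ^ (-(3 / 4) : ℝ) : ℝ) : ℂ) * (FF q ψ t / 2) =
      (((1 / (q : ℝ) ^ 2) ^ (-(1 / 4) : ℝ) * Real.pi ^ (-(1 / 4) : ℝ) * Real.Gamma (1 / 4) : ℝ) : ℂ) *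
        ∑' n : ℕ, ψ (n : ZMod q) *
          ((V ((n : ℝ) ^ 2 * ((1 / (q : ℝ) ^ 2) * (q * X))) / Real.sqrt n : ℝ) : ℂ) := by
    refine TW (fun n : ℕ => ψ (n : ZMod q)) hn1 ψ0 (1 / (q : ℝ) ^ 2) (q * X) (by positivity) hx0
      (fun t => FF q ψ t / 2) fun x hx => ?_
    have h1 := half _ (fun n => by
      push_cast
      rw [hE.eval_neg, neg_sq]) (by
      rw [Int.cast_zero, DirichletCharacter.map_zero' ψ (by omega), zero_mul]) _
      (FF_sum q ψ (hx0.trans hx))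
    refine h1.congr_fun fun n => ?_
    push_cast
    rfl
  have hGF : ∀ x : ℝ, 0 < x → GG q ψ x =
      (starRingEnd ℂ) (FF q ψ ((q : ℝ) ^ 2 * x)) * gaussSum ψ ZMod.stdAddChar := by
    intro x hx
    have h1 := (hasSum_conj'.2 (FF_sum q ψ (t := (q : ℝ) ^ 2 * x) (by positivity))).mul_right
      (gaussSum ψ (ZMod.stdAddChar : AddChar (ZMod q) ℂ))
    refine (GG_sum q ψ hψ hx).unique (h1.congr_fun fun n => ?_)
    rw [map_mul, conj_ofReal]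
    have h2 : -(Real.pi * (n : ℝ) ^ 2 * (1 / (q : ℝ) ^ 2) * ((q : ℝ) ^ 2 * x)) =
        -(Real.pi * (n : ℝ) ^ 2 * 1 * x) := by
      field_simp
    rw [h2]
  have hP2 : ∫ x in Ioi (((q : ℝ) * X)⁻¹), ((x ^ (-(3 / 4) : ℝ) : ℝ) : ℂ) *
        ((starRingEnd ℂ) (FF q ψ ((q : ℝ) ^ 2 * x)) / 2) =
      (((1 : ℝ) ^ (-(1 / 4) : ℝ) * Real.pi ^ (-(1 / 4) : ℝ) * Real.Gamma (1 / 4) : ℝ) : ℂ) *
        ∑' n : ℕ, (starRingEnd ℂ) (ψ (n : ZMod q)) *
          ((V ((n : ℝ) ^ 2 * (1 * ((q : ℝ) * X)⁻¹)) / Real.sqrt n : ℝ) : ℂ) := by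
    refine TW (fun n : ℕ => (starRingEnd ℂ) (ψ (n : ZMod q))) (fun n => ?_) ?_ 1 (((q : ℝ) * X)⁻¹)
      one_pos (inv_pos.2 hx0) (fun x => (starRingEnd ℂ) (FF q ψ ((q : ℝ) ^ 2 * x)) / 2) fun x hx => ?_
    · rw [RCLike.norm_conj]
      exact hn1 n
    · show (starRingEnd ℂ) (ψ ((0 : ℕ) : ZMod q)) = 0
      rw [ψ0, map_zero]
    · have hx' : 0 < x := (inv_pos.2 hx0).trans hx
      have h0 := hasSum_conj'.2 (FF_sum q ψ (t := (q : ℝ) ^ 2 * x) (by positivity))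
      have h1 := half _ (fun n => by
        push_cast
        rw [hE.eval_neg, neg_sq]) (by
        rw [Int.cast_zero, DirichletCharacter.map_zero' ψ (by omega), zero_mul, map_zero]) _ h0
      refine h1.congr_fun fun n => ?_
      rw [map_mul, conj_ofReal]
      have h2 : -(Real.pi * (((n : ℤ) : ℝ)) ^ 2 * (1 / (q : ℝ) ^ 2) * ((q : ℝ) ^ 2 * x)) =
          -(Real.pi * (n : ℝ) ^ 2 * 1 * x) := by
        push_cast
        field_simp
      rw [h2]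
      push_cast
      rfl
  have hA : ∫ t in Ioi ((q : ℝ) * X), ((t ^ (-(3 / 4) : ℝ) : ℝ) : ℂ) * FF q ψ t =
      2 * ∫ t in Ioi ((q : ℝ) * X), ((t ^ (-(3 / 4) : ℝ) : ℝ) : ℂ) * (FF q ψ t / 2) := by
    rw [← integral_const_mul]
    refine setIntegral_congr_fun measurableSet_Ioi fun x _ => ?_
    ring
  have hB : ∫ x in Ioi (((q : ℝ) * X)⁻¹), ((x ^ (-(3 / 4) : ℝ) : ℝ) : ℂ) * GG q ψ x =
      2 * gaussSum ψ ZMod.stdAddChar * ∫ x in Ioi (((q : ℝ) * X)⁻¹),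
        ((x ^ (-(3 / 4) : ℝ) : ℝ) : ℂ) * ((starRingEnd ℂ) (FF q ψ ((q : ℝ) ^ 2 * x)) / 2) := by
    rw [← integral_const_mul]
    refine setIntegral_congr_fun measurableSet_Ioi fun x hx => ?_
    rw [hGF x ((inv_pos.2 hx0).trans hx)]
    ring
  rw [hsplit, part_zero q ψ hx0, hA, hB, hP1, hP2] at hL
  have e1 : (-(1 / 2 : ℂ) / 2) = ((-(1 / 4) : ℝ) : ℂ) := by
    push_cast
    norm_num
  have e2 : ((1 / 2 : ℂ) / 2) = ((1 / 4 : ℝ) : ℂ) := by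
    push_cast
    norm_num
  have hGam : Gammaℝ (1 / 2) = ((Real.pi ^ (-(1 / 4) : ℝ) * Real.Gamma (1 / 4) : ℝ) : ℂ) := by
    rw [Gammaℝ_def, e1, e2, Complex.Gamma_ofReal, ← ofReal_cpow Real.pi_pos.le, ofReal_mul]
  have hsq : (q : ℂ) ^ (1 / 2 : ℂ) = ((Real.sqrt q : ℝ) : ℂ) := by
    rw [Real.sqrt_eq_rpow, ofReal_cpow hq0.le]
    push_cast
    rfl
  have hq4 : ((1 / (q : ℝ) ^ 2) ^ (-(1 / 4) : ℝ)) = Real.sqrt q := by
    rw [Real.sqrt_eq_rpow, one_div, Real.inv_rpow (by positivity), ← Real.rpow_neg (by positivity),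
      ← Real.rpow_natCast, ← Real.rpow_mul hq0.le]
    norm_num
  have hroot : ψ.rootNumber = gaussSum ψ ZMod.stdAddChar / ((Real.sqrt q : ℝ) : ℂ) := by
    unfold DirichletCharacter.rootNumber
    rw [if_pos hE, pow_zero, div_one, hsq]
  have hs1 : ∀ n : ℕ, (n : ℝ) ^ 2 * ((1 / (q : ℝ) ^ 2) * (q * X)) = (n : ℝ) ^ 2 * X / q := by
    intro n
    field_simp
  have hs2 : ∀ n : ℕ, (n : ℝ) ^ 2 * (1 * ((q : ℝ) * X)⁻¹) = (n : ℝ) ^ 2 / (X * q) := by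
    intro n
    field_simp
  simp_rw [hs1, hs2] at hL
  rw [hGam, hsq, hq4, Real.one_rpow] at hL
  rw [hroot]
  set S1 := ∑' n : ℕ, ψ (n : ZMod q) * ((V ((n : ℝ) ^ 2 * X / q) / Real.sqrt n : ℝ) : ℂ)
  set S2 := ∑' n : ℕ, (starRingEnd ℂ) (ψ (n : ZMod q)) *
      ((V ((n : ℝ) ^ 2 / (X * q)) / Real.sqrt n : ℝ) : ℂ)
  set B : ℝ := Real.pi ^ (-(1 / 4) : ℝ) with hB'
  set C : ℝ := Real.Gamma (1 / 4) with hC'
  have hB0 : (B : ℂ) ≠ 0 := ofReal_ne_zero.2 (Real.rpow_pos_of_pos Real.pi_pos _).ne'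
  have hC0 : (C : ℂ) ≠ 0 := ofReal_ne_zero.2 gam_pos.ne'
  have hR0 : ((Real.sqrt q : ℝ) : ℂ) ≠ 0 := ofReal_ne_zero.2 (Real.sqrt_pos.2 hq0).ne'
  push_cast at hL
  have hfin : (2 * ((Real.sqrt q : ℝ) : ℂ) * (B * C)) * ψ.LFunction (1 / 2) =
      (2 * ((Real.sqrt q : ℝ) : ℂ) * (B * C)) *
        (S1 + gaussSum ψ ZMod.stdAddChar / ((Real.sqrt q : ℝ) : ℂ) * S2) := by
    rw [hL]
    field_simp
    ring
  exact mul_left_cancel₀ (mul_ne_zero (mul_ne_zero two_ne_zero hR0) (mul_ne_zero hB0 hC0)) hfin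

end Pool.Agent.Run7.h635.PV
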