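import Pool.Agent.Run7.h635.PV.Vf

/-! Theta series of even characters and the integral for the central value (project PV, AFE0).
The lemmas on sums over residue classes are copied from `Pool/Agent/H471R3/GJ/Dch.lean` (helper930). -/

set_option autoImplicit false

namespace Pool.Agent.Run7.h635.PV

open Complex Filter Topology HurwitzZeta MeasureTheory Set

theorem gauss_shift {f : ℕ} [NeZero f] {χ : DirichletCharacter ℂ f} (hχ : χ.IsPrimitive)
    (n : ZMod f) : ∑ a : ZMod f, χ a * ZMod.stdAddChar (n * a) =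
      χ⁻¹ n * gaussSum χ (ZMod.stdAddChar : AddChar (ZMod f) ℂ) := by
  rw [← gaussSum_mulShift_of_isPrimitive _ hχ n]
  rfl

theorem hasSum_class (M : ℕ) (hM : 0 < M) (r : ℕ) (hr : r < M) (A : ℤ → ℂ) (a : ℂ)
    (h : HasSum (fun j : ℤ => A (M * j + r)) a) :
    HasSum (fun m : ℤ => if m % M = r then A m else 0) a := by
  have hinj : Function.Injective (fun j : ℤ => (M : ℤ) * j + r) := by
    intro x y hxy
    simp only at hxy
    have hM' : (M : ℤ) ≠ 0 := by exact_mod_cast hM.ne'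
    have : (M : ℤ) * x = M * y := by linarith
    exact mul_left_cancel₀ hM' this
  rw [← hinj.hasSum_iff]
  · refine h.congr_fun ?_
    intro j
    simp only [Function.comp]
    rw [if_pos]
    rw [Int.add_comm, Int.add_mul_emod_self_left]
    exact Int.emod_eq_of_lt (by positivity) (by exact_mod_cast hr)
  · intro x hx
    rw [if_neg]
    intro hxr
    apply hx
    refine ⟨x / M, ?_⟩
    simp only
    have := Int.mul_ediv_add_emod x M
    rw [hxr] at this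
    exact this

theorem hasSum_zmod (N : ℕ) [NeZero N] (f : ZMod N → ℂ) (A : ℤ → ℂ) (a : ZMod N → ℂ)
    (h : ∀ j : ZMod N, HasSum (fun m : ℤ => A (N * m + (j.val : ℕ))) (a j)) :
    HasSum (fun n : ℤ => f (n : ZMod N) * A n) (∑ j, f j * a j) := by
  have h1 : ∀ j : ZMod N, HasSum (fun n : ℤ => f j * (if n % N = (j.val : ℕ) then A n else 0))
      (f j * a j) := fun j =>
    (hasSum_class N (NeZero.pos N) j.val (ZMod.val_lt j) A _ (h j)).mul_left _
  have h2 := hasSum_sum (s := Finset.univ) fun j _ => h1 j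
  refine h2.congr_fun ?_
  intro n
  rw [Finset.sum_eq_single (n : ZMod N)]
  · rw [if_pos]
    rw [ZMod.val_intCast]
  · intro j _ hj
    rw [if_neg, mul_zero]
    intro h3
    apply hj
    have h4 : ((n % N : ℤ) : ZMod N) = j := by
      rw [h3]
      rw [Int.cast_natCast, ZMod.natCast_val, ZMod.cast_id', id]
    rw [← h4, ZMod.intCast_mod]
  · intro h3
    exact absurd (Finset.mem_univ _) h3

theorem std_val (N : ℕ) [NeZero N] (n : ℤ) (j : ZMod N) :
    ZMod.stdAddChar ((n : ZMod N) * j) =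
      cexp (2 * Real.pi * I * (((j.val : ℝ) / N : ℝ) : ℂ) * n) := by
  have h1 : ((n : ZMod N) * j) = ((n * (j.val : ℤ) : ℤ) : ZMod N) := by
    push_cast
    rw [ZMod.natCast_val, ZMod.cast_id', id]
  rw [h1, ZMod.stdAddChar_coe]
  congr 1
  push_cast
  ring

/-- the theta series -/
noncomputable def FF (N : ℕ) [NeZero N] (ψ : DirichletCharacter ℂ N) (t : ℝ) : ℂ :=
  ∑ j : ZMod N, ψ j * ((evenKernel (ZMod.toAddCircle j) t : ℝ) : ℂ)

/-- the dual theta series -/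
noncomputable def GG (N : ℕ) [NeZero N] (ψ : DirichletCharacter ℂ N) (t : ℝ) : ℂ :=
  ∑ j : ZMod N, ψ j * ((cosKernel (ZMod.toAddCircle j) t : ℝ) : ℂ)

theorem FF_sum (N : ℕ) [NeZero N] (ψ : DirichletCharacter ℂ N) {t : ℝ} (ht : 0 < t) :
    HasSum (fun n : ℤ => ψ (n : ZMod N) *
      ((Real.exp (-(Real.pi * n ^ 2 * (1 / N ^ 2) * t)) : ℝ) : ℂ)) (FF N ψ t) := by
  have hN : (0 : ℝ) < N := by exact_mod_cast NeZero.pos N
  apply hasSum_zmod N ψ (fun n : ℤ => ((Real.exp (-(Real.pi * n ^ 2 * (1 / N ^ 2) * t)) : ℝ) : ℂ))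
  intro j
  rw [hasSum_ofReal, ZMod.toAddCircle_apply]
  refine (hasSum_int_evenKernel ((j.val : ℝ) / N) ht).congr_fun ?_
  intro m
  push_cast
  congr 1
  field_simp

theorem GG_sum (N : ℕ) [NeZero N] (ψ : DirichletCharacter ℂ N) (hψ : ψ.IsPrimitive) {t : ℝ}
    (ht : 0 < t) :
    HasSum (fun n : ℤ => (starRingEnd ℂ) (ψ (n : ZMod N)) *
      ((Real.exp (-(Real.pi * n ^ 2 * 1 * t)) : ℝ) : ℂ) *
      gaussSum ψ (ZMod.stdAddChar : AddChar (ZMod N) ℂ)) (GG N ψ t) := by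
  have h2 := hasSum_sum (s := (Finset.univ : Finset (ZMod N))) fun j _ =>
    (hasSum_int_cosKernel ((j.val : ℝ) / N) ht).mul_left (ψ j)
  have h3 : GG N ψ t = ∑ j : ZMod N, ψ j *
      ((cosKernel (((j.val : ℝ) / N : ℝ) : UnitAddCircle) t : ℝ) : ℂ) := by
    unfold GG
    refine Finset.sum_congr rfl fun j _ => ?_
    rw [ZMod.toAddCircle_apply]
  rw [h3]
  refine h2.congr_fun ?_
  intro n
  have h5 : (starRingEnd ℂ) (ψ (n : ZMod N)) = ψ⁻¹ (n : ZMod N) := MulChar.star_apply' ψ (n : ZMod N)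
  rw [h5, mul_right_comm, ← gauss_shift hψ, Finset.sum_mul]
  refine Finset.sum_congr rfl fun j _ => ?_
  rw [std_val]
  have h6 : -(Real.pi * (n : ℝ) ^ 2 * 1 * t) = -Real.pi * n ^ 2 * t := by ring
  rw [h6]
  ring

theorem half (f : ℤ → ℂ) (hf : ∀ n, f (-n) = f n) (h0 : f 0 = 0) (T : ℂ) (hT : HasSum f T) :
    HasSum (fun m : ℕ => f (m : ℤ)) (T / 2) := by
  have hinj : Function.Injective (fun m : ℕ => (m : ℤ) + 1) := by
    intro a b hab
    simp only at hab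
    omega
  have h1 : Summable (fun m : ℕ => f ((m : ℤ) + 1)) := hT.summable.comp_injective hinj
  have h2 := h1.hasSum
  have h3 : HasSum (fun n : ℕ => f (-((n : ℤ) + 1))) (∑' m : ℕ, f ((m : ℤ) + 1)) := by
    refine h2.congr_fun fun n => ?_
    rw [hf]
  have h4 := HasSum.of_add_one_of_neg_add_one h2 h3
  have h5 := h4.unique hT
  rw [h0, add_zero] at h5
  have h6 : (∑' m : ℕ, f ((m : ℤ) + 1)) = T / 2 := by
    rw [← h5]
    ring
  rw [h6] at h2
  have h7 := (hasSum_nat_add_iff (f := fun m : ℕ => f (m : ℤ)) 1).1 (by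
    refine h2.congr_fun fun n => ?_
    push_cast
    rfl)
  simpa [h0] using h7

theorem FE (N : ℕ) [NeZero N] (ψ : DirichletCharacter ℂ N) {x : ℝ} (hx : 0 < x) :
    FF N ψ (x⁻¹) = ((x ^ (1 / 2 : ℝ) : ℝ) : ℂ) * GG N ψ x := by
  unfold FF GG
  rw [Finset.mul_sum]
  refine Finset.sum_congr rfl fun j _ => ?_
  have h1 : evenKernel (ZMod.toAddCircle j) x⁻¹ =
      x ^ (1 / 2 : ℝ) * cosKernel (ZMod.toAddCircle j) x := by
    rw [evenKernel_functional_equation, Real.inv_rpow hx.le]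
    simp only [one_div, inv_inv]
  rw [h1]
  push_cast
  ring

/-- a primitive character modulo `N ≥ 2` is not trivial -/
theorem ne_one_of_prim {N : ℕ} [NeZero N] (hN : 2 ≤ N) {ψ : DirichletCharacter ℂ N}
    (h : ψ.IsPrimitive) : ψ ≠ 1 := by
  intro h1
  have h2 : ψ.conductor = 1 := by
    rw [h1]
    exact DirichletCharacter.conductor_one
  have h3 : ψ.conductor = N := h
  omega

/-- the central value as an integral -/
theorem central (N : ℕ) [NeZero N] (hN : 2 ≤ N) (ψ : DirichletCharacter ℂ N) (hψ : ψ.IsPrimitive)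
    (hE : ψ.Even) :
    IntegrableOn (fun t : ℝ => ((t ^ (-(3 / 4) : ℝ) : ℝ) : ℂ) * FF N ψ t) (Ioi 0) ∧
    2 * (N : ℂ) ^ (1 / 2 : ℂ) * Gammaℝ (1 / 2) * ψ.LFunction (1 / 2) =
      ∫ t in Ioi (0 : ℝ), ((t ^ (-(3 / 4) : ℝ) : ℝ) : ℂ) * FF N ψ t := by
  have hs1 : ∑ j : ZMod N, ψ j = 0 := MulChar.sum_eq_zero_of_ne_one (ne_one_of_prim hN hψ)
  have hs2 : ∀ j : ZMod N, ψ j * (hurwitzEvenFEPair (ZMod.toAddCircle j)).f₀ = 0 := by
    intro j
    by_cases hj : j = 0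
    · have h0 : ψ (0 : ZMod N) = 0 := DirichletCharacter.map_zero' ψ (by omega)
      rw [hj, h0, zero_mul]
    · have h1 : (hurwitzEvenFEPair (ZMod.toAddCircle j)).f₀ =
          if ZMod.toAddCircle j = 0 then 1 else 0 := rfl
      rw [h1, if_neg (fun h => hj (ZMod.toAddCircle_eq_zero.1 h)), mul_zero]
  have hM : ∀ j : ZMod N, IntegrableOn (fun t : ℝ => (t : ℂ) ^ ((1 / 4 : ℂ) - 1) •
      (hurwitzEvenFEPair (ZMod.toAddCircle j)).f_modif t) (Ioi 0) := fun j =>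
    ((hurwitzEvenFEPair (ZMod.toAddCircle j)).isStrongFEPair_toStrongFEPair.hasMellin (1 / 4)).1
  have hΛ : ∀ j : ZMod N, ψ j * (hurwitzEvenFEPair (ZMod.toAddCircle j)).Λ (1 / 4) =
      ψ j * (∫ t in Ioi (0 : ℝ), (t : ℂ) ^ ((1 / 4 : ℂ) - 1) •
        (hurwitzEvenFEPair (ZMod.toAddCircle j)).f_modif t) - 4 * ψ j := by
    intro j
    have h1 : (hurwitzEvenFEPair (ZMod.toAddCircle j)).Λ (1 / 4) =
      (∫ t in Ioi (0 : ℝ), (t : ℂ) ^ ((1 / 4 : ℂ) - 1) •
        (hurwitzEvenFEPair (ZMod.toAddCircle j)).f_modif t) -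
        (1 / (1 / 4 : ℂ)) • (hurwitzEvenFEPair (ZMod.toAddCircle j)).f₀ -
        ((1 : ℂ) / (((1 / 2 : ℝ) : ℂ) - 1 / 4)) • (1 : ℂ) := rfl
    rw [h1, mul_sub, mul_sub, smul_eq_mul, smul_eq_mul, mul_left_comm (ψ j) (1 / (1 / 4 : ℂ)),
      hs2 j]
    push_cast
    norm_num
    ring
  have hpt : ∀ t : ℝ, 0 < t → t ≠ 1 → ∑ j : ZMod N, ψ j * ((t : ℂ) ^ ((1 / 4 : ℂ) - 1) •
      (hurwitzEvenFEPair (ZMod.toAddCircle j)).f_modif t) =
      ((t ^ (-(3 / 4) : ℝ) : ℝ) : ℂ) * FF N ψ t := by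
    intro t ht ht1
    have e1 : (t : ℂ) ^ ((1 / 4 : ℂ) - 1) = ((t ^ (-(3 / 4) : ℝ) : ℝ) : ℂ) := by
      rw [ofReal_cpow ht.le]
      congr 1
      push_cast
      norm_num
    have e2 : ∀ j : ZMod N, ψ j * ((t : ℂ) ^ ((1 / 4 : ℂ) - 1) •
      (hurwitzEvenFEPair (ZMod.toAddCircle j)).f_modif t) =
      ((t ^ (-(3 / 4) : ℝ) : ℝ) : ℂ) * (ψ j *
        (hurwitzEvenFEPair (ZMod.toAddCircle j)).f_modif t) := by
      intro j
      rw [e1, smul_eq_mul]
      ring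
    simp_rw [e2]
    rw [← Finset.mul_sum]
    congr 1
    rcases lt_or_gt_of_ne ht1 with h | h
    · have e3 : ∀ j : ZMod N, ψ j * (hurwitzEvenFEPair (ZMod.toAddCircle j)).f_modif t =
          ψ j * ((evenKernel (ZMod.toAddCircle j) t : ℝ) : ℂ) -
          ψ j * ((t ^ (-(1 / 2) : ℝ) : ℝ) : ℂ) := by
        intro j
        have e4 : (hurwitzEvenFEPair (ZMod.toAddCircle j)).f_modif t =
          ((evenKernel (ZMod.toAddCircle j) t : ℝ) : ℂ) - (1 * ((t ^ (-(1 / 2) : ℝ) : ℝ) : ℂ)) • 1 := by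
          rw [WeakFEPair.f_modif, Pi.add_apply, indicator_of_notMem (by simpa using h.le),
            indicator_of_mem (mem_Ioo.2 ⟨ht, h⟩), zero_add]
          rfl
        rw [e4, smul_eq_mul, mul_one, one_mul, mul_sub]
      simp_rw [e3]
      rw [Finset.sum_sub_distrib, ← Finset.sum_mul, hs1, zero_mul, sub_zero]
      rfl
    · have e3 : ∀ j : ZMod N, ψ j * (hurwitzEvenFEPair (ZMod.toAddCircle j)).f_modif t =
          ψ j * ((evenKernel (ZMod.toAddCircle j) t : ℝ) : ℂ) -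
          ψ j * (hurwitzEvenFEPair (ZMod.toAddCircle j)).f₀ := by
        intro j
        have e4 : (hurwitzEvenFEPair (ZMod.toAddCircle j)).f_modif t =
          ((evenKernel (ZMod.toAddCircle j) t : ℝ) : ℂ) -
            (hurwitzEvenFEPair (ZMod.toAddCircle j)).f₀ := by
          rw [WeakFEPair.f_modif, Pi.add_apply, indicator_of_mem (mem_Ioi.2 h),
            indicator_of_notMem (fun hh => absurd (mem_Ioo.1 hh).2 (not_lt.2 (le_of_lt h))), add_zero]
          rfl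
        rw [e4, mul_sub]
      simp_rw [e3, hs2, sub_zero]
      rfl
  have hae : (fun t : ℝ => ∑ j : ZMod N, ψ j * ((t : ℂ) ^ ((1 / 4 : ℂ) - 1) •
      (hurwitzEvenFEPair (ZMod.toAddCircle j)).f_modif t)) =ᵐ[volume.restrict (Ioi 0)]
      fun t : ℝ => ((t ^ (-(3 / 4) : ℝ) : ℝ) : ℂ) * FF N ψ t := by
    have h1 : ∀ᵐ t : ℝ ∂(volume.restrict (Ioi (0 : ℝ))), t ≠ 1 :=
      ae_restrict_of_ae (Measure.ae_ne volume 1)
    filter_upwards [ae_restrict_mem measurableSet_Ioi, h1] with t h2 h3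
    exact hpt t h2 h3
  have hI : IntegrableOn (fun t : ℝ => ∑ j : ZMod N, ψ j * ((t : ℂ) ^ ((1 / 4 : ℂ) - 1) •
      (hurwitzEvenFEPair (ZMod.toAddCircle j)).f_modif t)) (Ioi 0) :=
    integrable_finsetSum _ fun j _ => (hM j).const_mul _
  refine ⟨hI.congr hae, ?_⟩
  rw [← integral_congr_ae hae, integral_finsetSum _ fun j _ => (hM j).const_mul _]
  simp_rw [integral_const_mul]
  have h5 : ∑ j : ZMod N, ψ j * (∫ t in Ioi (0 : ℝ), (t : ℂ) ^ ((1 / 4 : ℂ) - 1) •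
        (hurwitzEvenFEPair (ZMod.toAddCircle j)).f_modif t) =
      ∑ j : ZMod N, ψ j * (hurwitzEvenFEPair (ZMod.toAddCircle j)).Λ (1 / 4) := by
    simp_rw [hΛ]
    rw [Finset.sum_sub_distrib, ← Finset.mul_sum, hs1, mul_zero, sub_zero]
  rw [h5]
  have hEf : Function.Even (ψ : ZMod N → ℂ) := hE.to_fun
  have h6 : ψ.LFunction (1 / 2) = ZMod.completedLFunction (ψ : ZMod N → ℂ) (1 / 2) /
      Gammaℝ (1 / 2) :=
    ZMod.LFunction_eq_completed_div_gammaFactor_even hEf (1 / 2) (Or.inl (by norm_num))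
  have hG : Gammaℝ (1 / 2) ≠ 0 := Gammaℝ_ne_zero_of_re_pos (by norm_num)
  have hNp : (N : ℂ) ^ (1 / 2 : ℂ) * (N : ℂ) ^ (-(1 / 2) : ℂ) = 1 := by
    rw [← cpow_add _ _ (by exact_mod_cast NeZero.ne N)]
    norm_num
  rw [h6, ZMod.completedLFunction_def_even hEf]
  have h7 : ∀ j : ZMod N, completedHurwitzZetaEven (ZMod.toAddCircle j) (1 / 2) =
      (hurwitzEvenFEPair (ZMod.toAddCircle j)).Λ (1 / 4) / 2 := by
    intro j
    have : ((1 / 2 : ℂ) / 2) = 1 / 4 := by norm_num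
    show (hurwitzEvenFEPair (ZMod.toAddCircle j)).Λ ((1 / 2 : ℂ) / 2) / 2 = _
    rw [this]
  simp_rw [h7, mul_div_assoc']
  rw [← Finset.sum_div]
  field_simp
  rw [hNp, one_mul]

end Pool.Agent.Run7.h635.PV
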