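import Pool.Agent.Run7.h343.PV.Iface

/-! Facts on the cutoff `V` of the project PV: `0 ≤ V ≤ 1`, `V` is decreasing,
`V y ≤ exp (-π y)`, `1 - V y ≤ 2 y ^ (1/4)`, and the scaled integrals. -/

set_option autoImplicit false

namespace Pool.Agent.Run7.h635.PV

open Pool.Agent.Run7.h343.PV MeasureTheory Set

noncomputable def g (x : ℝ) : ℝ := x ^ (-(3 / 4) : ℝ) * Real.exp (-x)

theorem g_int : IntegrableOn g (Ioi 0) := by
  have h := Real.GammaIntegral_convergent (s := 1 / 4) (by norm_num)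
  refine h.congr_fun (fun x _ => ?_) measurableSet_Ioi
  unfold g
  rw [mul_comm]
  norm_num

theorem g_tot : ∫ x in Ioi (0 : ℝ), g x = Real.Gamma (1 / 4) := by
  rw [Real.Gamma_eq_integral (by norm_num : (0 : ℝ) < 1 / 4)]
  refine setIntegral_congr_fun measurableSet_Ioi fun x _ => ?_
  unfold g
  rw [mul_comm]
  norm_num

theorem g_nonneg {x : ℝ} (hx : 0 ≤ x) : 0 ≤ g x :=
  mul_nonneg (Real.rpow_nonneg hx _) (Real.exp_pos _).le

theorem V_def (y : ℝ) : V y = (∫ x in Ioi (Real.pi * y), g x) / Real.Gamma (1 / 4) := rfl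

theorem gam_pos : 0 < Real.Gamma (1 / 4) := Real.Gamma_pos_of_pos (by norm_num)

theorem sub0 {a : ℝ} (ha : 0 ≤ a) : Ioi a ⊆ Ioi (0 : ℝ) := Ioi_subset_Ioi ha

theorem V_nonneg {y : ℝ} (hy : 0 ≤ y) : 0 ≤ V y := by
  rw [V_def]
  refine div_nonneg (setIntegral_nonneg measurableSet_Ioi fun x hx => ?_) gam_pos.le
  have : 0 ≤ Real.pi * y := mul_nonneg Real.pi_pos.le hy
  exact g_nonneg (this.trans (le_of_lt hx))

theorem V_anti {y z : ℝ} (hy : 0 ≤ y) (h : y ≤ z) : V z ≤ V y := by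
  rw [V_def, V_def]
  refine div_le_div_of_nonneg_right ?_ gam_pos.le
  have h0 : 0 ≤ Real.pi * y := mul_nonneg Real.pi_pos.le hy
  have h1 : Real.pi * y ≤ Real.pi * z := mul_le_mul_of_nonneg_left h Real.pi_pos.le
  refine setIntegral_mono_set (g_int.mono_set (sub0 h0)) ?_ ?_
  · refine (ae_restrict_iff' measurableSet_Ioi).2 (Filter.Eventually.of_forall fun x hx => ?_)
    exact g_nonneg (h0.trans (le_of_lt hx))
  · exact (Ioi_subset_Ioi h1).eventuallyLE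

theorem V_zero : V 0 = 1 := by
  rw [V_def, mul_zero, g_tot, div_self gam_pos.ne']

theorem V_le_one {y : ℝ} (hy : 0 ≤ y) : V y ≤ 1 := V_zero ▸ V_anti le_rfl hy

theorem tail_le {a : ℝ} (ha : 0 ≤ a) :
    ∫ x in Ioi a, g x ≤ Real.exp (-a) * Real.Gamma (1 / 4) := by
  have h1 := (measurePreserving_add_right (volume : Measure ℝ) a).setIntegral_preimage_emb
    (measurableEmbedding_addRight a) g (Ioi a)
  have h2 : (fun x => x + a) ⁻¹' Ioi a = Ioi 0 := by
    ext x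
    simp
  rw [h2] at h1
  rw [← h1, ← g_tot, ← integral_const_mul]
  refine setIntegral_mono_on ?_ (g_int.const_mul _) measurableSet_Ioi fun x hx => ?_
  · have h3 : IntegrableOn g (Ioi a) := g_int.mono_set (sub0 ha)
    have h4 := ((measurePreserving_add_right (volume : Measure ℝ) a).integrableOn_comp_preimage
      (measurableEmbedding_addRight a) (f := g) (s := Ioi a)).2 h3
    rw [h2] at h4
    exact h4
  · have hx0 : (0 : ℝ) < x := hx
    unfold g
    have h5 : (x + a) ^ (-(3 / 4) : ℝ) ≤ x ^ (-(3 / 4) : ℝ) :=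
      Real.rpow_le_rpow_of_nonpos hx0 (by linarith) (by norm_num)
    have h6 : Real.exp (-(x + a)) = Real.exp (-a) * Real.exp (-x) := by
      rw [← Real.exp_add]
      ring_nf
    rw [h6]
    calc (x + a) ^ (-(3 / 4) : ℝ) * (Real.exp (-a) * Real.exp (-x))
        ≤ x ^ (-(3 / 4) : ℝ) * (Real.exp (-a) * Real.exp (-x)) :=
          mul_le_mul_of_nonneg_right h5 (by positivity)
      _ = Real.exp (-a) * (x ^ (-(3 / 4) : ℝ) * Real.exp (-x)) := by ring

theorem V_le_exp {y : ℝ} (hy : 0 ≤ y) : V y ≤ Real.exp (-(Real.pi * y)) := by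
  rw [V_def, div_le_iff₀ gam_pos]
  exact tail_le (mul_nonneg Real.pi_pos.le hy)

theorem head_le {a : ℝ} (ha : 0 ≤ a) : ∫ x in Ioc 0 a, g x ≤ 4 * a ^ (1 / 4 : ℝ) := by
  have h1 : IntervalIntegrable (fun x : ℝ => x ^ (-(3 / 4) : ℝ)) volume 0 a :=
    intervalIntegral.intervalIntegrable_rpow' (by norm_num)
  have h2 : ∫ x in (0 : ℝ)..a, x ^ (-(3 / 4) : ℝ) = 4 * a ^ (1 / 4 : ℝ) := by
    rw [integral_rpow (Or.inl (by norm_num))]
    have e : (-(3 / 4) + 1 : ℝ) = 1 / 4 := by norm_num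
    rw [e, Real.zero_rpow (by norm_num)]
    ring
  rw [← h2, intervalIntegral.integral_of_le ha]
  refine setIntegral_mono_on (g_int.mono_set fun x hx => hx.1) ?_ measurableSet_Ioc fun x hx => ?_
  · exact (intervalIntegrable_iff_integrableOn_Ioc_of_le ha).1 h1
  · unfold g
    have h3 : Real.exp (-x) ≤ 1 := Real.exp_le_one_iff.2 (by linarith [hx.1])
    have h4 : 0 ≤ x ^ (-(3 / 4) : ℝ) := Real.rpow_nonneg hx.1.le _
    nlinarith

theorem gam_ge : 16 / 5 ≤ Real.Gamma (1 / 4) := by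
  rw [← g_tot]
  have h0 : ∫ x in Ioc (0 : ℝ) 1, g x ≤ ∫ x in Ioi (0 : ℝ), g x := by
    refine setIntegral_mono_set g_int ?_ ?_
    · refine (ae_restrict_iff' measurableSet_Ioi).2 (Filter.Eventually.of_forall fun x hx => ?_)
      exact g_nonneg (le_of_lt hx)
    · have hsub : Ioc (0 : ℝ) 1 ⊆ Ioi 0 := fun x hx => hx.1
      exact hsub.eventuallyLE
  refine le_trans ?_ h0
  have i1 : IntervalIntegrable (fun x : ℝ => x ^ (-(3 / 4) : ℝ)) volume 0 1 :=
    intervalIntegral.intervalIntegrable_rpow' (by norm_num)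
  have i2 : IntervalIntegrable (fun x : ℝ => x ^ (1 / 4 : ℝ)) volume 0 1 :=
    intervalIntegral.intervalIntegrable_rpow' (by norm_num)
  have h2 : ∫ x in (0 : ℝ)..1, (x ^ (-(3 / 4) : ℝ) - x ^ (1 / 4 : ℝ)) = 16 / 5 := by
    rw [intervalIntegral.integral_sub i1 i2, integral_rpow (Or.inl (by norm_num)),
      integral_rpow (Or.inl (by norm_num))]
    have e : (-(3 / 4) + 1 : ℝ) = 1 / 4 := by norm_num
    have e' : (1 / 4 + 1 : ℝ) = 5 / 4 := by norm_num
    rw [e, e', Real.zero_rpow (by norm_num), Real.zero_rpow (by norm_num), Real.one_rpow,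
      Real.one_rpow]
    norm_num
  rw [← h2, intervalIntegral.integral_of_le zero_le_one]
  refine setIntegral_mono_on ?_ (g_int.mono_set fun x hx => hx.1) measurableSet_Ioc fun x hx => ?_
  · exact (intervalIntegrable_iff_integrableOn_Ioc_of_le zero_le_one).1 (i1.sub i2)
  · unfold g
    have h3 : 1 - x ≤ Real.exp (-x) := by
      have := Real.add_one_le_exp (-x)
      linarith
    have h4 : 0 ≤ x ^ (-(3 / 4) : ℝ) := Real.rpow_nonneg hx.1.le _
    have h5 : x ^ (1 / 4 : ℝ) = x ^ (-(3 / 4) : ℝ) * x := by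
      have := Real.rpow_add_one hx.1.ne' (-(3 / 4) : ℝ)
      rw [← this]
      norm_num
    rw [h5]
    nlinarith

theorem one_sub_V {y : ℝ} (hy : 0 ≤ y) : 1 - V y ≤ 2 * y ^ (1 / 4 : ℝ) := by
  have ha : 0 ≤ Real.pi * y := mul_nonneg Real.pi_pos.le hy
  have h1 : (∫ x in Ioc 0 (Real.pi * y), g x) + ∫ x in Ioi (Real.pi * y), g x =
      Real.Gamma (1 / 4) := by
    rw [← g_tot, ← setIntegral_union (Ioc_disjoint_Ioi le_rfl) measurableSet_Ioi
      (g_int.mono_set fun x hx => hx.1) (g_int.mono_set (sub0 ha)), Ioc_union_Ioi_eq_Ioi ha]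
  have h2 : 1 - V y = (∫ x in Ioc 0 (Real.pi * y), g x) / Real.Gamma (1 / 4) := by
    rw [V_def, eq_div_iff gam_pos.ne', sub_mul, div_mul_cancel₀ _ gam_pos.ne']
    linarith
  rw [h2, div_le_iff₀ gam_pos]
  have h3 := head_le ha
  have h4 : (Real.pi * y) ^ (1 / 4 : ℝ) = Real.pi ^ (1 / 4 : ℝ) * y ^ (1 / 4 : ℝ) :=
    Real.mul_rpow Real.pi_pos.le hy
  have h5 : Real.pi ^ (1 / 4 : ℝ) ≤ 8 / 5 := by
    have h6 : Real.pi ≤ (8 / 5 : ℝ) ^ (4 : ℝ) := by
      have := Real.pi_lt_four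
      norm_num
      linarith
    calc Real.pi ^ (1 / 4 : ℝ) ≤ ((8 / 5 : ℝ) ^ (4 : ℝ)) ^ (1 / 4 : ℝ) :=
          Real.rpow_le_rpow Real.pi_pos.le h6 (by norm_num)
      _ = 8 / 5 := by
          rw [← Real.rpow_mul (by norm_num)]
          norm_num
  have h6 : 0 ≤ y ^ (1 / 4 : ℝ) := Real.rpow_nonneg hy _
  rw [h4] at h3
  have h7 := gam_ge
  nlinarith

/-- the scaled integral -/
theorem scaled (A x0 : ℝ) (hA : 0 < A) (hx0 : 0 ≤ x0) (c : ℝ) (hc : A * x0 = Real.pi * c) :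
    ∫ x in Ioi x0, x ^ (-(3 / 4) : ℝ) * Real.exp (-(A * x)) =
      A ^ (-(1 / 4) : ℝ) * (Real.Gamma (1 / 4) * V c) := by
  have h1 := integral_comp_mul_left_Ioi g x0 hA
  have h2 : ∫ x in Ioi x0, g (A * x) = A ^ (-(3 / 4) : ℝ) *
      ∫ x in Ioi x0, x ^ (-(3 / 4) : ℝ) * Real.exp (-(A * x)) := by
    rw [← integral_const_mul]
    refine setIntegral_congr_fun measurableSet_Ioi fun x hx => ?_
    have hx' : 0 ≤ x := hx0.trans (le_of_lt hx)
    unfold g
    rw [Real.mul_rpow hA.le hx', mul_assoc]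
  rw [h2, hc] at h1
  have h3 : Real.Gamma (1 / 4) * V c = ∫ x in Ioi (Real.pi * c), g x := by
    rw [V_def, mul_div_cancel₀ _ gam_pos.ne']
  rw [h3]
  have h4 : A ^ (-(1 / 4) : ℝ) = A ^ (3 / 4 : ℝ) * A⁻¹ := by
    rw [← Real.rpow_neg_one A, ← Real.rpow_add hA]
    norm_num
  have h5 : A ^ (3 / 4 : ℝ) * A ^ (-(3 / 4) : ℝ) = 1 := by
    rw [← Real.rpow_add hA]
    norm_num
  rw [smul_eq_mul] at h1
  calc ∫ x in Ioi x0, x ^ (-(3 / 4) : ℝ) * Real.exp (-(A * x))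
      = (A ^ (3 / 4 : ℝ) * A ^ (-(3 / 4) : ℝ)) *
        ∫ x in Ioi x0, x ^ (-(3 / 4) : ℝ) * Real.exp (-(A * x)) := by rw [h5, one_mul]
    _ = A ^ (3 / 4 : ℝ) * (A ^ (-(3 / 4) : ℝ) *
        ∫ x in Ioi x0, x ^ (-(3 / 4) : ℝ) * Real.exp (-(A * x))) := by ring
    _ = A ^ (-(1 / 4) : ℝ) * ∫ x in Ioi (Real.pi * c), g x := by
        rw [h1, h4]
        ring

end Pool.Agent.Run7.h635.PV
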